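import Mathlib
import Pool.Agent.Q163.PG.GenMoves

set_option autoImplicit false
set_option linter.unusedSectionVars false
set_option linter.unusedVariables false

/-!
# A matroid polytope inside another one which is not a cell of a matroid subdivision

The matroid `M` has rank three, the elements `0, …, 8` and the lines `{0,1,3}`, `{1,2,4}`,
`{1,5,6,8}`, `{2,3,7,8}`, `{0,2,5}`, `{3,4,5}` (all other lines have two points). The matroid `M'`
is obtained from the uniform matroid of rank three on four elements, the parallel classes are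
`{0,6}`, `{1,2,3,5,8}`, `{4}`, `{7}`. Both are connected and the polytope of `M'` is contained in the
polytope of `M`, but it is not a cell of a matroid subdivision of it: by the two perspectivities with
the centres `1` and `5` between `{2,3,7,8}` and `{0,4,6,7}` the octahedron of the bases
`{1,x,y}` of `M` (`x, y` in `{0,4,6,7}`) is split between `{1,0,6}` and `{1,4,7}` if and only if the
octahedron of the bases `{5,x,y}` is split between `{5,4,6}` and `{5,0,7}`, but
`M'` contains just `{1,4,7}` of the first pair and both sets of the second one.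
-/

namespace Pool.Agent.Results.MP_454fc7_co.NotACell

open Pool.Agent.Q163.PG Finset

/-- A matroid is connected if it is not the direct sum of two matroids on nonempty ground sets. -/
def Connected {α : Type} (M : Matroid α) : Prop :=
  ∀ (M₁ M₂ : Matroid α) (h : Disjoint M₁.E M₂.E), M₁.E.Nonempty → M₂.E.Nonempty →
    M ≠ M₁.disjointSum M₂ h

/-- The lines of `M` with at least three points. -/
def lns : Finset (Finset (Fin 9)) :=
  {{0, 1, 3}, {1, 2, 4}, {1, 5, 6, 8}, {2, 3, 7, 8}, {0, 2, 5}, {3, 4, 5}}

/-- The bases of `M` are the sets of three points which are not collinear. -/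
def BsM (B : Finset (Fin 9)) : Prop := B.card = 3 ∧ ∀ l ∈ lns, ¬ B ⊆ l

/-- The parallel classes of `M'`. -/
def cls : Fin 9 → Fin 4 := ![0, 1, 1, 1, 2, 1, 0, 3, 1]

/-- The bases of `M'` are the sets of three elements of different parallel classes. -/
def BsN (B : Finset (Fin 9)) : Prop := B.card = 3 ∧ ∀ x ∈ B, ∀ y ∈ B, cls x = cls y → x = y

instance (B : Finset (Fin 9)) : Decidable (BsM B) := by unfold BsM; infer_instance

instance (B : Finset (Fin 9)) : Decidable (BsN B) := by unfold BsN; infer_instance

theorem lns_inter : ∀ l ∈ lns, ∀ l' ∈ lns, l ≠ l' → (l ∩ l').card ≤ 1 := by decide +kernel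

/-- exchange of one element, from finsets to sets -/
theorem exch_of (P : Finset (Fin 9) → Prop)
    (h : ∀ A B : Finset (Fin 9), P A → P B → ∀ x ∈ A, x ∉ B →
      ∃ y ∈ B, y ∉ A ∧ P (insert y (A.erase x))) :
    Matroid.ExchangeProperty (fun B : Set (Fin 9) => ∃ F : Finset (Fin 9), B = F ∧ P F) := by
  rintro _ _ ⟨A, rfl, hA⟩ ⟨B, rfl, hB⟩ x hx
  obtain ⟨y, hy, hyA, hP⟩ := h A B hA hB x (by exact_mod_cast hx.1)
    (fun h' => hx.2 (by exact_mod_cast h'))
  refine ⟨y, ⟨by exact_mod_cast hy, fun h' => hyA (by exact_mod_cast h')⟩, _, ?_, hP⟩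
  rw [coe_insert, coe_erase]

theorem exchM : ∀ A B : Finset (Fin 9), BsM A → BsM B → ∀ x ∈ A, x ∉ B →
    ∃ y ∈ B, y ∉ A ∧ BsM (insert y (A.erase x)) := by
  intro A B hA hB x hx hxB
  by_contra hcon
  push Not at hcon
  have hc : (A.erase x).card = 2 := by
    rw [card_erase_of_mem hx, hA.1]
  -- an element of `B` outside of `A`
  obtain ⟨y₀, hy₀, hy₀A⟩ : ∃ y ∈ B, y ∉ A := by
    by_contra h
    push Not at h
    have h1 : B = A := eq_of_subset_of_card_le h (by rw [hA.1, hB.1])
    exact hxB (h1 ▸ hx)
  have hline : ∀ y ∈ B, y ∉ A → ∃ l ∈ lns, insert y (A.erase x) ⊆ l := by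
    intro y hy hyA
    have h1 := hcon y hy hyA
    have h2 : (insert y (A.erase x)).card = 3 := by
      rw [card_insert_of_notMem (fun h => hyA (mem_of_mem_erase h)), hc]
    by_contra h3
    push Not at h3
    exact h1 ⟨h2, h3⟩
  obtain ⟨l, hl, hsub⟩ := hline y₀ hy₀ hy₀A
  apply hB.2 l hl
  intro y hy
  by_cases hyA : y ∈ A
  · apply hsub
    apply mem_insert_of_mem
    rw [mem_erase]
    exact ⟨fun h => hxB (h ▸ hy), hyA⟩
  · obtain ⟨l', hl', hsub'⟩ := hline y hy hyA
    have h1 : l = l' := by
      by_contra hne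
      have h2 := lns_inter l hl l' hl' hne
      have h3 : A.erase x ⊆ l ∩ l' :=
        subset_inter ((subset_insert _ _).trans hsub) ((subset_insert _ _).trans hsub')
      have h4 := card_le_card h3
      omega
    rw [h1]
    exact hsub' (mem_insert_self _ _)

theorem exchN : ∀ A B : Finset (Fin 9), BsN A → BsN B → ∀ x ∈ A, x ∉ B →
    ∃ y ∈ B, y ∉ A ∧ BsN (insert y (A.erase x)) := by
  intro A B hA hB x hx hxB
  have hc : (A.erase x).card = 2 := by
    rw [card_erase_of_mem hx, hA.1]
  have h1 : ((A.erase x).image cls).card ≤ 2 := card_image_le.trans hc.le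
  have h2 : (B.image cls).card = 3 := by
    rw [card_image_of_injOn, hB.1]
    intro a ha b hb hab
    exact hB.2 a (by exact_mod_cast ha) b (by exact_mod_cast hb) hab
  obtain ⟨c, hc1, hc2⟩ : ∃ c ∈ B.image cls, c ∉ (A.erase x).image cls := by
    by_contra h
    push Not at h
    have := card_le_card h
    omega
  rw [mem_image] at hc1
  obtain ⟨y, hy, rfl⟩ := hc1
  have hnot : ∀ z ∈ A.erase x, cls z ≠ cls y := by
    intro z hz h
    exact hc2 (mem_image.2 ⟨z, hz, h⟩)
  have hyA : y ∉ A := by
    intro h
    exact hnot y (mem_erase.2 ⟨fun h' => hxB (h' ▸ hy), h⟩) rfl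
  refine ⟨y, hy, hyA, ?_, ?_⟩
  · rw [card_insert_of_notMem (fun h => hyA (mem_of_mem_erase h)), hc]
  · intro a ha b hb hab
    rw [mem_insert] at ha hb
    rcases ha with rfl | ha
    · rcases hb with rfl | hb
      · rfl
      · exact absurd hab.symm (hnot b hb)
    · rcases hb with rfl | hb
      · exact absurd hab (hnot a ha)
      · exact hA.2 a (mem_of_mem_erase ha) b (mem_of_mem_erase hb) hab

/-- The matroid `M`. -/
def M : Matroid (Fin 9) :=
  Matroid.ofIsBaseOfFinite (E := Set.univ) Set.finite_univ
    (fun B : Set (Fin 9) => ∃ F : Finset (Fin 9), B = F ∧ BsM F)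
    ⟨_, {0, 1, 4}, rfl, by decide +kernel⟩ (exch_of BsM exchM) (fun _ _ => Set.subset_univ _)

/-- The matroid `M'`. -/
def M' : Matroid (Fin 9) :=
  Matroid.ofIsBaseOfFinite (E := Set.univ) Set.finite_univ
    (fun B : Set (Fin 9) => ∃ F : Finset (Fin 9), B = F ∧ BsN F)
    ⟨_, {0, 1, 4}, rfl, by decide +kernel⟩ (exch_of BsN exchN) (fun _ _ => Set.subset_univ _)

theorem M_base (F : Finset (Fin 9)) : M.IsBase (F : Set (Fin 9)) ↔ BsM F := by
  unfold M
  rw [Matroid.ofIsBaseOfFinite_isBase]
  constructor
  · rintro ⟨F', h, h'⟩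
    rw [Finset.coe_injective h]
    exact h'
  · intro h
    exact ⟨F, rfl, h⟩

theorem M'_base (F : Finset (Fin 9)) : M'.IsBase (F : Set (Fin 9)) ↔ BsN F := by
  unfold M'
  rw [Matroid.ofIsBaseOfFinite_isBase]
  constructor
  · rintro ⟨F', h, h'⟩
    rw [Finset.coe_injective h]
    exact h'
  · intro h
    exact ⟨F, rfl, h⟩

/-- every set of at least two elements of one line of `M` is in a flat of rank two of `M'` -/
theorem cls_line : ∀ l ∈ lns, (l.image cls).card ≤ 2 := by decide +kernel

theorem base_le (F : Finset (Fin 9)) (h : BsN F) : BsM F := by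
  refine ⟨h.1, fun l hl hsub => ?_⟩
  have h1 := cls_line l hl
  have h2 : (F.image cls).card = 3 := by
    rw [card_image_of_injOn, h.1]
    intro a ha b hb hab
    exact h.2 a (by exact_mod_cast ha) b (by exact_mod_cast hb) hab
  have h3 := card_le_card (image_subset_image (f := cls) hsub)
  omega

/-- exchanged elements are in the same component -/
theorem same_side {N M₁ M₂ : Matroid (Fin 9)} (h : Disjoint M₁.E M₂.E)
    (hN : N = M₁.disjointSum M₂ h) (x e : Fin 9) (B : Finset (Fin 9)) (hx : x ∉ B) (he : e ∉ B)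
    (h1 : N.IsBase ((insert x B : Finset (Fin 9)) : Set (Fin 9)))
    (h2 : N.IsBase ((insert e B : Finset (Fin 9)) : Set (Fin 9))) : x ∈ M₁.E ↔ e ∈ M₁.E := by
  classical
  rw [hN, Matroid.disjointSum_isBase_iff] at h1 h2
  have h3 := h1.1.encard_eq_encard_of_isBase h2.1
  have key : ∀ y : Fin 9, y ∉ B → (((insert y B : Finset (Fin 9)) : Set (Fin 9)) ∩ M₁.E).encard =
      ((B : Set (Fin 9)) ∩ M₁.E).encard + (if y ∈ M₁.E then 1 else 0) := by
    intro y hy
    by_cases hyM : y ∈ M₁.E
    · rw [if_pos hyM, coe_insert, Set.insert_inter_of_mem hyM, Set.encard_insert_of_notMem]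
      intro h'
      exact hy (by exact_mod_cast h'.1)
    · rw [if_neg hyM, coe_insert, Set.insert_inter_of_notMem hyM, add_zero]
  rw [key x hx, key e he] at h3
  have hfin : (((B : Set (Fin 9)) ∩ M₁.E).ncard : ℕ∞) = ((B : Set (Fin 9)) ∩ M₁.E).encard :=
    (Set.toFinite _).cast_ncard_eq
  rw [← hfin] at h3
  by_cases c1 : x ∈ M₁.E <;> by_cases c2 : e ∈ M₁.E
  · simp [c1, c2]
  · rw [if_pos c1, if_neg c2] at h3
    have h4 : ((B : Set (Fin 9)) ∩ M₁.E).ncard + 1 = ((B : Set (Fin 9)) ∩ M₁.E).ncard + 0 := by
      exact_mod_cast h3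
    omega
  · rw [if_neg c1, if_pos c2] at h3
    have h4 : ((B : Set (Fin 9)) ∩ M₁.E).ncard + 0 = ((B : Set (Fin 9)) ∩ M₁.E).ncard + 1 := by
      exact_mod_cast h3
    omega
  · simp [c1, c2]

theorem connected_of (N : Matroid (Fin 9)) (hE : N.E = Set.univ)
    (hN : ∀ F : Finset (Fin 9), BsN F → N.IsBase (F : Set (Fin 9))) : Connected N := by
  intro M₁ M₂ h hne₁ hne₂ heq
  have s7 : ∀ (x : Fin 9) (B : Finset (Fin 9)), x ∉ B → 7 ∉ B → BsN (insert x B) →
      BsN (insert 7 B) → (x ∈ M₁.E ↔ (7 : Fin 9) ∈ M₁.E) := by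
    intro x B hx h7 h1 h2
    exact same_side h heq x 7 B hx h7 (hN _ h1) (hN _ h2)
  have all : ∀ x : Fin 9, x ∈ M₁.E ↔ (7 : Fin 9) ∈ M₁.E := by
    intro x
    fin_cases x
    · exact s7 0 {1, 4} (by decide +kernel) (by decide +kernel) (by decide +kernel) (by decide +kernel)
    · exact s7 1 {0, 4} (by decide +kernel) (by decide +kernel) (by decide +kernel) (by decide +kernel)
    · exact s7 2 {0, 4} (by decide +kernel) (by decide +kernel) (by decide +kernel) (by decide +kernel)
    · exact s7 3 {0, 4} (by decide +kernel) (by decide +kernel) (by decide +kernel) (by decide +kernel)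
    · exact s7 4 {0, 1} (by decide +kernel) (by decide +kernel) (by decide +kernel) (by decide +kernel)
    · exact s7 5 {0, 4} (by decide +kernel) (by decide +kernel) (by decide +kernel) (by decide +kernel)
    · exact s7 6 {1, 4} (by decide +kernel) (by decide +kernel) (by decide +kernel) (by decide +kernel)
    · exact Iff.rfl
    · exact s7 8 {0, 4} (by decide +kernel) (by decide +kernel) (by decide +kernel) (by decide +kernel)
  have hun : M₁.E ∪ M₂.E = Set.univ := by
    rw [← hE, heq, Matroid.disjointSum_ground_eq]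
  by_cases h7 : (7 : Fin 9) ∈ M₁.E
  · obtain ⟨y, hy⟩ := hne₂
    exact Set.disjoint_left.1 h ((all y).2 h7) hy
  · obtain ⟨y, hy⟩ := hne₁
    exact h7 ((all y).1 hy)

/-- **The polytope of `M'` is not a cell.** -/
theorem not_cell (S : Set (Set (Fin 9 → ℝ))) (hS : IsMatroidSubdivision M S) :
    polytope M' ∉ S := by
  intro hM'
  -- the octahedron at `1` is split
  have h0 : sig S {1} 0 6 4 7 := by
    intro N hN h1 h2
    have hmid : (1/2 : ℝ) • vec ((insert 0 (insert 6 {1}) : Finset (Fin 9)) : Set (Fin 9)) +
        (1 - 1/2 : ℝ) • vec ((insert 4 (insert 7 {1}) : Finset (Fin 9)) : Set (Fin 9)) ∈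
        polytope M' := by
      have e1 : (1/2 : ℝ) • vec ((insert 0 (insert 6 {1}) : Finset (Fin 9)) : Set (Fin 9)) +
          (1 - 1/2 : ℝ) • vec ((insert 4 (insert 7 {1}) : Finset (Fin 9)) : Set (Fin 9)) =
          (1/2 : ℝ) • vec ((insert 0 (insert 4 {1}) : Finset (Fin 9)) : Set (Fin 9)) +
          (1/2 : ℝ) • vec ((insert 6 (insert 7 {1}) : Finset (Fin 9)) : Set (Fin 9)) := by
        funext e
        simp only [Pi.add_apply, Pi.smul_apply, smul_eq_mul, vec_apply]
        fin_cases e <;> simp <;> norm_num
      rw [e1]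
      exact (convex_convexHull ℝ _) (vec_mem M' _ ((M'_base _).2 (by decide +kernel)))
        (vec_mem M' _ ((M'_base _).2 (by decide +kernel))) (by norm_num) (by norm_num) (by norm_num)
    have h3 := (pair hS hM' hN _ _ h1 h2 (1/2) (by norm_num) (by norm_num) hmid).1
    rw [M'_base] at h3
    revert h3
    decide +kernel
  have mb : ∀ F : Finset (Fin 9), BsM F → M.IsBase (F : Set (Fin 9)) := fun F h => (M_base F).2 h
  have mn : ∀ F : Finset (Fin 9), ¬ BsM F → ¬ M.IsBase (F : Set (Fin 9)) :=
    fun F h h' => h ((M_base F).1 h')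
  -- the perspectivity with the centre `1`
  have h1 : sig S {1} 3 6 4 7 := par_move hS {1} 0 3 6 4 7 (by decide +kernel) (by decide +kernel) (by decide +kernel)
    (by decide +kernel) (by decide +kernel) (by decide +kernel) (by decide +kernel) (by decide +kernel) (by decide +kernel) (by decide +kernel)
    (mb _ (by decide +kernel)) (mb _ (by decide +kernel)) (mb _ (by decide +kernel)) (mn _ (by decide +kernel)) h0
  have h2 : sig S {1} 2 7 3 6 := par_move hS {1} 4 2 7 3 6 (by decide +kernel) (by decide +kernel) (by decide +kernel)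
    (by decide +kernel) (by decide +kernel) (by decide +kernel) (by decide +kernel) (by decide +kernel) (by decide +kernel) (by decide +kernel)
    (mb _ (by decide +kernel)) (mb _ (by decide +kernel)) (mb _ (by decide +kernel)) (mn _ (by decide +kernel)) (sig_symm h1)
  have h3 : sig S {1} 8 3 2 7 := par_move hS {1} 6 8 3 2 7 (by decide +kernel) (by decide +kernel) (by decide +kernel)
    (by decide +kernel) (by decide +kernel) (by decide +kernel) (by decide +kernel) (by decide +kernel) (by decide +kernel) (by decide +kernel)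
    (mb _ (by decide +kernel)) (mb _ (by decide +kernel)) (mb _ (by decide +kernel)) (mn _ (by decide +kernel))
    (sig_comm (sig_symm h2))
  -- from `1` to `5`
  have h4 : sig S {5} 8 3 2 7 := by
    have h5 := line_move hS ∅ 1 5 8 3 2 7 (by decide +kernel) (by decide +kernel) (by decide +kernel) (by decide +kernel)
      (by decide +kernel) (by decide +kernel) (mb _ (by decide +kernel)) (mb _ (by decide +kernel)) (mb _ (by decide +kernel))
      (mb _ (by decide +kernel)) (by
        intro B hB
        rw [M_base] at hB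
        by_contra hlt
        push Not at hlt
        have h6 : B ∩ {8, 3, 2, 7} = B := eq_of_subset_of_card_le inter_subset_left (by
          rw [hB.1]
          exact hlt)
        apply hB.2 {2, 3, 7, 8} (by decide +kernel)
        have h7 : B ⊆ {8, 3, 2, 7} := inter_eq_left.1 h6
        refine h7.trans ?_
        decide +kernel) h3
    exact h5
  -- the perspectivity with the centre `5`
  have h5 : sig S {5} 0 7 8 3 := par_move hS {5} 2 0 7 8 3 (by decide +kernel) (by decide +kernel) (by decide +kernel)
    (by decide +kernel) (by decide +kernel) (by decide +kernel) (by decide +kernel) (by decide +kernel) (by decide +kernel) (by decide +kernel)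
    (mb _ (by decide +kernel)) (mb _ (by decide +kernel)) (mb _ (by decide +kernel)) (mn _ (by decide +kernel)) (sig_symm h4)
  have h6 : sig S {5} 4 8 0 7 := par_move hS {5} 3 4 8 0 7 (by decide +kernel) (by decide +kernel) (by decide +kernel)
    (by decide +kernel) (by decide +kernel) (by decide +kernel) (by decide +kernel) (by decide +kernel) (by decide +kernel) (by decide +kernel)
    (mb _ (by decide +kernel)) (mb _ (by decide +kernel)) (mb _ (by decide +kernel)) (mn _ (by decide +kernel))
    (sig_comm (sig_symm h5))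
  have h7 : sig S {5} 6 4 0 7 := par_move hS {5} 8 6 4 0 7 (by decide +kernel) (by decide +kernel) (by decide +kernel)
    (by decide +kernel) (by decide +kernel) (by decide +kernel) (by decide +kernel) (by decide +kernel) (by decide +kernel) (by decide +kernel)
    (mb _ (by decide +kernel)) (mb _ (by decide +kernel)) (mb _ (by decide +kernel)) (mn _ (by decide +kernel)) (sig_comm h6)
  -- but `M'` contains both
  exact h7 M' hM' ((M'_base _).2 (by decide +kernel)) ((M'_base _).2 (by decide +kernel))

/-- **There are connected matroids `M`, `M'` on `[n]` such that the polytope of `M'` is properly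
contained in the polytope of `M` but is not a cell (of any dimension) of a matroid subdivision
of it.** -/
theorem result : ∃ (n : ℕ) (M M' : Matroid (Fin n)), M.E = Set.univ ∧ M'.E = Set.univ ∧
    Connected M ∧ Connected M' ∧ polytope M' ⊂ polytope M ∧
    ∀ S : Set (Set (Fin n → ℝ)), IsMatroidSubdivision M S → polytope M' ∉ S := by
  refine ⟨9, M, M', rfl, rfl, ?_, ?_, ?_, not_cell⟩
  · exact connected_of M rfl (fun F h => (M_base F).2 (base_le F h))
  · exact connected_of M' rfl (fun F h => (M'_base F).2 h)
  · constructor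
    · apply convexHull_mono
      rintro x ⟨B, hB, rfl⟩
      obtain ⟨F, rfl⟩ := exists_fs B
      exact ⟨_, (M_base F).2 (base_le F ((M'_base F).1 hB)), rfl⟩
    · intro hsub
      have h1 : vec (({0, 4, 6} : Finset (Fin 9)) : Set (Fin 9)) ∈ polytope M :=
        vec_mem M _ ((M_base _).2 (by decide +kernel))
      have h2 := (vec_mem_iff M' _).1 (hsub h1)
      rw [M'_base] at h2
      revert h2
      decide +kernel

end Pool.Agent.Results.MP_454fc7_co.NotACell
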